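import Pool.Agent.TH377.NC.Emb
import Pool.Agent.TH377.NC.Local

/-!
# Curves with conjugate linear forms over number fields, in one-parameter families
-/

set_option autoImplicit false
set_option maxHeartbeats 400000
set_option linter.unusedSectionVars false

namespace Pool.Agent.U190.NC

open Polynomial NumberField IsDedekindDomain Pool.Agent.TH377.NC Pool.Agent.TH377.LocG
  Pool.Agent.TH120.Sec Pool.Agent.W620.SC
open scoped Matrix

universe u v w x y

/-- transversality over any algebraically closed field -/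
theorem nd_lift' {K : Type u} [Field K] {R : Type v} [Field R] [Algebra K R] {B : Type w} [Field B]
    [Algebra K B] [Algebra R B] [IsScalarTower K R B] [IsAlgClosed B] (G : K[X]) (hG : G ≠ 0)
    (P : Fin 3 → K[X]) (Q : MvPolynomial (Fin 3) K)
    (h : ∀ r r' : AlgebraicClosure K, aeval r G = 0 → aeval r' G = 0 → r ≠ r' →
      MvPolynomial.aeval ((fun j => aeval r (P j)) ⨯₃ (fun j => aeval r' (P j))) Q ≠ 0)
    (θ θ' : B) (hθ : aeval θ G = 0) (hθ' : aeval θ' G = 0) (hne : θ ≠ θ') :
    MvPolynomial.eval₂ (algebraMap R B) ((fun j => aeval θ ((P j).map (algebraMap K R))) ⨯₃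
      (fun j => aeval θ' ((P j).map (algebraMap K R))))
      (MvPolynomial.map (algebraMap K R) Q) ≠ 0 := by
  classical
  let ι : AlgebraicClosure K →ₐ[K] B := IsAlgClosed.lift
  have hroot : ∀ t : B, aeval t G = 0 → ∃ r : AlgebraicClosure K,
      aeval r G = 0 ∧ ι r = t := by
    intro t ht
    have hsp : (G.map (algebraMap K (AlgebraicClosure K))).Splits :=
      IsAlgClosed.splits _
    have h0 : G.map (algebraMap K B) ≠ 0 := Polynomial.map_ne_zero hG
    have h1 : t ∈ (G.map (algebraMap K B)).roots := by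
      rw [mem_roots h0, IsRoot.def, eval_map_algebraMap]
      exact ht
    have h2 : G.map (algebraMap K B) =
        (G.map (algebraMap K (AlgebraicClosure K))).map
          (ι : AlgebraicClosure K →+* B) := by
      rw [Polynomial.map_map, AlgHom.comp_algebraMap]
    rw [h2, hsp.roots_map, Multiset.mem_map] at h1
    obtain ⟨r, hr, hrt⟩ := h1
    refine ⟨r, ?_, hrt⟩
    rw [mem_roots (Polynomial.map_ne_zero hG), IsRoot.def,
      eval_map_algebraMap] at hr
    exact hr
  obtain ⟨r, hr, hrθ⟩ := hroot θ hθ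
  obtain ⟨r', hr', hrθ'⟩ := hroot θ' hθ'
  have hrr : r ≠ r' := by
    rintro rfl
    exact hne (hrθ.symm.trans hrθ')
  have h1 := h r r' hr hr' hrr
  intro h2
  apply h1
  apply (ι : AlgebraicClosure K →+* B).injective
  rw [map_zero, MvPolynomial.aeval_def, MvPolynomial.hom_eval₂]
  rw [MvPolynomial.eval₂_map, ← IsScalarTower.algebraMap_eq K R B] at h2
  rw [AlgHom.comp_algebraMap]
  convert h2 using 2
  funext k
  have e1 := map_cross (ι : AlgebraicClosure K →+* B) (fun j => aeval r (P j))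
    (fun j => aeval r' (P j)) k
  have e2 : ∀ (ρ : AlgebraicClosure K) (s : B), ι ρ = s →
      (fun j => (ι : AlgebraicClosure K →+* B) (aeval ρ (P j))) =
        fun j => aeval s ((P j).map (algebraMap K R)) := by
    intro ρ s hs
    funext j
    change ι (aeval ρ (P j)) = _
    rw [aeval_map_algebraMap, ← aeval_algHom_apply, hs]
  rw [e2 r θ hrθ, e2 r' θ' hrθ'] at e1
  exact e1.symm

section

variable {K : Type u} [Field K] [NumberField K] {L : Type y} [Field L] [NumberField L]
  [Algebra K L] (v : HeightOneSpectrum (𝓞 K)) (D : ℕ) (hD : D ≠ 0)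
  (hn : ¬ D ∣ Module.finrank K L) (g : (𝓞 K)[X]) (hg : g.Monic)
  (hs : (g.map (Ideal.Quotient.mk v.asIdeal)).Separable)
  (hcyc : ∀ n : ℕ, ¬ Nat.gcd 2 D * D ∣ n → IsCoprime (X ^ (Ideal.absNorm v.asIdeal ^ n) - X)
    (g.map (Ideal.Quotient.mk v.asIdeal)))
  (b : 𝓞 K) (hb : b ∈ v.asIdeal) (hb' : b ∉ v.asIdeal ^ 2)
  (n q : ℕ) (hDn : D ∣ n) (hnq : n * q = g.natDegree) (hd : g.natDegree ≠ 0)
  (P : Fin 3 → K[X]) (Q : MvPolynomial (Fin 3) K) (hQ : Q.IsHomogeneous q)
  (htr : ∀ r r' : AlgebraicClosure K, aeval r (g.map (algebraMap (𝓞 K) K)) = 0 →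
    aeval r' (g.map (algebraMap (𝓞 K) K)) = 0 → r ≠ r' →
    MvPolynomial.aeval ((fun j => aeval r (P j)) ⨯₃ (fun j => aeval r' (P j))) Q ≠ 0)

include hD hn hg hs hcyc hb hb' hDn hnq hd hQ htr

/-- no points and no sections -/
theorem nf_both :
    (∀ x : Fin 3 → L, x ≠ 0 →
      ((((g.map (algebraMap (𝓞 K) K)).map (algebraMap K (AlgebraicClosure L))).roots.map fun θ =>
        ∑ j, aeval θ (P j) * algebraMap L (AlgebraicClosure L) (x j)).prod) ≠
      algebraMap K (AlgebraicClosure L) (algebraMap (𝓞 K) K b) *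
        MvPolynomial.aeval (fun j => algebraMap L (AlgebraicClosure L) (x j)) Q ^ n) ∧
    ∀ (F : Type v) (Ω : Type w) [Field F] [Field Ω] [Algebra L F] [Algebra F Ω] [Algebra L Ω]
      [Algebra K Ω] [IsScalarTower L F Ω] [IsScalarTower K L Ω] [IsAlgClosure F Ω]
      (x : Fin 3 → F) (U : Set (ValuationSubring F)), x ≠ 0 →
      ((((g.map (algebraMap (𝓞 K) K)).map (algebraMap K Ω)).roots.map fun θ =>
        ∑ j, aeval θ (P j) * algebraMap F Ω (x j)).prod) =
        algebraMap K Ω (algebraMap (𝓞 K) K b) *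
          MvPolynomial.aeval (fun j => algebraMap F Ω (x j)) Q ^ n →
      (∀ O ∈ U, ∀ c : L, algebraMap L F c ∈ O) → IsEmpty (GSection L F Ω U) := by
  obtain ⟨ℓ, hℓ0, hℓD, A, _, _, _, _, hfr, f, hf, hfL, hfs, hfd, ϖ, t, m, hϖ, ht, hm, hbt⟩ :=
    nf_data (K := K) (L := L) v D hD hn g hg hs hcyc b hb hb'
  have hczL : CharZero L := charZero_of_injective_algebraMap (algebraMap K L).injective
  obtain ⟨n', rfl⟩ := hℓD.trans hDn
  have hn' : 0 < n' := by
    rcases Nat.eq_zero_or_pos n' with h | h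
    · rw [h, mul_zero, zero_mul] at hnq
      exact absurd hnq.symm hd
    · exact h
  have hfL' : f.map (algebraMap A L) =
      (g.map (algebraMap (𝓞 K) K)).map (algebraMap K L) := by
    rw [hfL, Polynomial.map_map, ← IsScalarTower.algebraMap_eq (𝓞 K) K L]
  have hgK : (g.map (algebraMap (𝓞 K) K)) ≠ 0 := (hg.map _).ne_zero
  have hfdeg : f.natDegree = n' * ℓ * q := by
    have h1 : (f.map (algebraMap A L)).natDegree = f.natDegree := hf.natDegree_map _
    rw [← h1, hfL, hg.natDegree_map, ← hnq]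
    ring
  have hQL : (MvPolynomial.map (algebraMap K L) Q).IsHomogeneous q := hQ.map _
  have haL : algebraMap K L (algebraMap (𝓞 K) K b) =
      algebraMap A L t * algebraMap A L ϖ ^ m := by
    rw [← hbt, IsScalarTower.algebraMap_apply (𝓞 K) K L]
  refine ⟨?_, ?_⟩
  · intro x hx hon
    have hst : IsScalarTower K L (AlgebraicClosure L) := inferInstance
    refine local_point (A := A) (k := L) (kb := AlgebraicClosure L) ℓ hℓ0 f hf hfs hfd ϖ hϖ
      (algebraMap K L (algebraMap (𝓞 K) K b)) t ht m hm haL (fun j => (P j).map (algebraMap K L))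
      (MvPolynomial.map (algebraMap K L) Q) q hQL ?_ x hx n' hn' ?_
    · intro θ θ' hθ hθ' hne
      rw [hfL', aeval_map_algebraMap] at hθ hθ'
      exact nd_lift' _ hgK P Q htr θ θ' hθ hθ' hne
    · rw [hfL', Polynomial.map_map, ← IsScalarTower.algebraMap_eq K L (AlgebraicClosure L)]
      simp only [aeval_map_algebraMap]
      rw [hon, ← IsScalarTower.algebraMap_apply K L, mul_comm n' ℓ]
      congr 2
      rw [MvPolynomial.aeval_def, MvPolynomial.eval₂_map, MvPolynomial.hom_eval₂,
        RingHom.id_comp, ← IsScalarTower.algebraMap_eq]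
  · intro F Ω _ _ _ _ _ _ _ _ _ x U hx hon hU
    have hcl : IsAlgClosed Ω := IsAlgClosure.isAlgClosed F
    have halg : Algebra.IsAlgebraic F Ω := IsAlgClosure.isAlgebraic
    have hac : IsAlgClosure L (algebraicClosure L Ω) := inferInstance
    have hkb : IsAlgClosed (algebraicClosure L Ω) := hac.1
    refine local_section (A := A) (k := L) ℓ hℓ0 f hf hfs hfd ϖ hϖ
      (algebraMap K L (algebraMap (𝓞 K) K b)) t ht m hm haL U hU
      (fun j => (P j).map (algebraMap K L))
      (MvPolynomial.map (algebraMap K L) Q) q hQL ?_ x hx n' hn' hfdeg ?_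
    · intro θ θ' hθ hθ' hne
      rw [hfL', aeval_map_algebraMap] at hθ hθ'
      exact nd_lift' _ hgK P Q htr θ θ' hθ hθ' hne
    · rw [hfL', Polynomial.map_map, ← IsScalarTower.algebraMap_eq K L Ω]
      simp only [aeval_map_algebraMap]
      rw [hon, ← IsScalarTower.algebraMap_apply K L, mul_comm n' ℓ]
      congr 2
      rw [MvPolynomial.aeval_def, MvPolynomial.eval₂_map, MvPolynomial.hom_eval₂,
        ← RingHom.comp_assoc, ← IsScalarTower.algebraMap_eq L F Ω,
        ← IsScalarTower.algebraMap_eq K L Ω]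

end

end Pool.Agent.U190.NC
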